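import Pool.Agent.MP_9bb777_an.Haar

/-!
Almost every `m`-tuple in `SU(2)` is Diophantine with exponent `2 - 8 ^ (1 - m) < 2`:
every nontrivial word `w` of length `n` satisfies `2 - |tr w(a)| ≥ exp (-C n ^ (2 - 8 ^ (1 - m)))`.
-/

open MeasureTheory

theorem Pool.Agent.Results.MP_9bb777_an.Diophantine.result (m : ℕ) (hm : 2 ≤ m)
    [MeasurableSpace (Matrix.specialUnitaryGroup (Fin 2) ℂ)]
    [BorelSpace (Matrix.specialUnitaryGroup (Fin 2) ℂ)]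
    (μ : Measure (Fin m → Matrix.specialUnitaryGroup (Fin 2) ℂ)) [μ.IsHaarMeasure] :
    ∀ᵐ a ∂μ, ∃ C : ℝ, ∀ w : FreeGroup (Fin m), w ≠ 1 →
      Real.exp (-(C * (w.norm : ℝ) ^ (2 - (1 / 8 : ℝ) ^ (m - 1)))) ≤
        2 - ‖(FreeGroup.lift a w).1.trace‖ :=
  Pool.Agent.MP_9bb777_an.dio_trace m hm μ
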