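import Pool.Agent.MP_9bb777_an.NG.All

/-!
Near spectral gap for random tuples in `SU(2)`: for `m ≥ 1400` and almost every `m`-tuple that
generates a dense subgroup, the operator `f ↦ ∑ f (s ·)` has norm at most
`2 m (1 - c (log J) ^ (-A))`, `A = 21 / log (m / 100)`, on mean-zero polynomials of degree `≤ J`.
-/

open MeasureTheory

theorem Pool.Agent.Results.MP_9bb777_an.NearGap.result (m : ℕ) (hm : 1400 ≤ m)
    [MeasurableSpace (Matrix.specialUnitaryGroup (Fin 2) ℂ)]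
    [BorelSpace (Matrix.specialUnitaryGroup (Fin 2) ℂ)]
    (μ : Measure (Matrix.specialUnitaryGroup (Fin 2) ℂ)) [μ.IsHaarMeasure]
    [IsProbabilityMeasure μ] :
    ∀ᵐ a ∂(Measure.pi fun _ : Fin m => μ),
      Dense (Subgroup.closure (Set.range a) : Set (Matrix.specialUnitaryGroup (Fin 2) ℂ)) →
      ∃ c : ℝ, 0 < c ∧ ∀ J : ℕ, 2 ≤ J →
        ∀ (p : MvPolynomial (Fin 4) ℂ) (f : Matrix.specialUnitaryGroup (Fin 2) ℂ → ℂ),
          p.totalDegree ≤ J →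
          (∀ g, f g = MvPolynomial.eval
            ![((g.1 0 0).re : ℂ), ((g.1 0 0).im : ℂ), ((g.1 0 1).re : ℂ), ((g.1 0 1).im : ℂ)] p) →
          ∫ g, f g ∂μ = 0 →
          √(∫ g, ‖∑ i, (f (a i * g) + f ((a i)⁻¹ * g))‖ ^ 2 ∂μ) ≤
            2 * (m : ℝ) * (1 - c * Real.log (J : ℝ) ^ (-(21 / Real.log ((m : ℝ) / 100)))) *
              √(∫ g, ‖f g‖ ^ 2 ∂μ) :=
  Pool.Agent.MP_9bb777_an.NG.near_gap m hm μ
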