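import Pool.Agent.MP_9bb777_an.ZO.Main

/-!
A zero-one law for the asymptotically Ramanujan property in `SU(2)`.  The descendants of an
`m`-tuple `a` are the tuples reached by moves `a i ↦ a i * a j` (`i = j` allowed).  For every
`r`-tuple of words `w`: almost every `a` has `w(a)` asymptotically Ramanujan (when `w(a)` generates
a dense subgroup) if and only if the set of `a` all of whose descendants have this property is
not null.
-/

open MeasureTheory Pool.Agent.MP_9bb777_an.ZO

theorem Pool.Agent.Results.MP_9bb777_an.ZeroOne.result (m r : ℕ) (hm : 2 ≤ m) (_hr : 2 ≤ r)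
    (w : Fin r → FreeGroup (Fin m))
    [MeasurableSpace (Matrix.specialUnitaryGroup (Fin 2) ℂ)]
    [BorelSpace (Matrix.specialUnitaryGroup (Fin 2) ℂ)]
    (μ : Measure (Matrix.specialUnitaryGroup (Fin 2) ℂ)) [μ.IsHaarMeasure]
    [IsProbabilityMeasure μ] :
    (∀ᵐ a ∂(Measure.pi fun _ : Fin m => μ),
      Dense (Subgroup.closure (Set.range fun j => FreeGroup.lift a (w j)) :
        Set (Matrix.specialUnitaryGroup (Fin 2) ℂ)) → AR μ fun j => FreeGroup.lift a (w j)) ↔
    (Measure.pi fun _ : Fin m => μ)
      {a | ∀ b : Fin m → Matrix.specialUnitaryGroup (Fin 2) ℂ,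
        Relation.ReflTransGen (fun b c => ∃ i j, c = Function.update b i (b i * b j)) a b →
        Dense (Subgroup.closure (Set.range fun j => FreeGroup.lift b (w j)) :
          Set (Matrix.specialUnitaryGroup (Fin 2) ℂ)) →
        AR μ fun j => FreeGroup.lift b (w j)} ≠ 0 :=
  desc_su hm μ (meas_good m r w μ)
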